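import Pool.Agent.Helper22P.Cmp

/-! Amplification of the overlap inside the range of a projection which commutes with all terms. -/

set_option autoImplicit false
set_option linter.unusedSectionVars false

open scoped BigOperators Matrix InnerProductSpace
open Finset Pool.Agent.TH235.PP Pool.Agent.TH235.PQ

namespace Pool.Agent.Helper22P

theorem nonempty_of_nr {m : Type*} [Fintype m] [DecidableEq m] (x : m → ℂ) (h : nr x = 1) :
    Nonempty m := by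
  by_contra hcon
  rw [not_nonempty_iff] at hcon
  have h1 := nr_sq x
  unfold normSq at h1
  rw [Finset.univ_eq_empty, Finset.sum_empty, h] at h1
  norm_num at h1

section core

variable {d R' L : ℕ} [NeZero L]

theorem ham_comm (h : BoxOp d (R' + 1)) {P : TorOp d L}
    (hc : ∀ u : Site L, term h u * P = P * term h u) : ham h L * P = P * ham h L := by
  unfold ham
  rw [Finset.sum_mul, Finset.mul_sum]
  exact Finset.sum_congr rfl fun u _ => hc u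

theorem cmp_sum {m N : ℕ} (V : Matrix (Site L → Fin d) (Fin m) ℂ) (hV : Vᴴ * V = 1)
    (y : Fin N → TorOp d L) :
    1 + ∑ b, Vᴴ * y b * V = Vᴴ * (1 + ∑ b, y b) * V := by
  rw [Matrix.mul_add, Matrix.add_mul, Matrix.mul_one, hV, Matrix.mul_sum, Matrix.sum_mul]

open scoped Matrix.Norms.L2Operator in
/-- The truncated power method in the range of `P`. -/
lemma coreS (hL : R' + 1 ≤ L) (h : BoxOp d (R' + 1))
    (hh : h.IsHermitian) (Δ : ℝ) (hΔ : 0 < Δ) {m : ℕ} {V : Matrix (Site L → Fin d) (Fin m) ℂ}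
    {P : TorOp d L} (hVP : V * Vᴴ = P) (hV : Vᴴ * V = 1)
    (hc : ∀ u : Site L, term h u * P = P * term h u)
    (Ψ : (Site L → Fin d) → ℂ) (hΨ : normSq Ψ = 1) (hgr : SectorGround (ham h L) P Δ Ψ)
    {K : Type*} [Fintype K] (A0 : Site L → Fin d → K → K → K → K → ℂ)
    (hφP : P *ᵥ contract A0 = contract A0)
    (hφ : nr (contract A0) = 1) (q r : ℕ) (κ y0 : ℝ) (hκ : 0 ≤ κ) (hy0 : y0 = κ * nJ h)
    (hNy : ((L ^ 2 : ℕ) : ℝ) * y0 ≤ 1 / 80) (hM : 2 * tm q * (((L ^ 2 : ℕ) : ℝ) * y0) ^ 2 ≤ 1)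
    (hr : ((L ^ 2 : ℕ) : ℝ) * Real.exp (100 * (((R' + 1) ^ 4 : ℕ) + 1) ^ 2 * (1 + tm q * y0) -
      r / (10 * ((R' + 1) ^ 4 : ℕ) * (((R' + 1) ^ 4 : ℕ) + 1) ^ 2)) ≤ 1) :
    ∃ g : ℝ, 0 < g ∧
    ∃ A : Site L → Fin d →
      (K × (Fin (2 * R' + 1) × Fin (2 * R' + 1) → LabT d (R' + 1) q r)) →
      (K × (Fin (2 * R' + 1) × Fin (2 * R' + 1) → LabT d (R' + 1) q r)) →
      (K × (Fin (2 * R' + 1) × Fin (2 * R' + 1) → LabT d (R' + 1) q r)) →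
      (K × (Fin (2 * R' + 1) × Fin (2 * R' + 1) → LabT d (R' + 1) q r)) → ℂ,
      P *ᵥ contract A = contract A ∧
      nr (contract A - ((g : ℂ) ^ tm q * ip Ψ (contract A0)) • Ψ) ≤
        g ^ tm q * (6 * (((L ^ 2 : ℕ) : ℝ) * Real.exp (100 * (((R' + 1) ^ 4 : ℕ) + 1) ^ 2 *
          (1 + tm q * y0) - r / (10 * ((R' + 1) ^ 4 : ℕ) * (((R' + 1) ^ 4 : ℕ) + 1) ^ 2))) +
          4 * (tm q * (((L ^ 2 : ℕ) : ℝ) * y0) ^ 2) + Real.exp (-(κ * tm q * Δ / 2))) := by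
  have hnrΨ : nr Ψ = 1 := nr_one Ψ hΨ
  set Ψ' := Vᴴ *ᵥ Ψ with hΨ'
  set φ' := Vᴴ *ᵥ contract A0 with hφ'
  have hVΨ : V *ᵥ Ψ' = Ψ := V_back hVP hgr.1
  have hVφ : V *ᵥ φ' = contract A0 := V_back hVP hφP
  have hnΨ' : nr Ψ' = 1 := by rw [← nr_V hV, hVΨ, hnrΨ]
  have hnφ' : nr φ' = 1 := by rw [← nr_V hV, hVφ, hφ]
  have hne : Nonempty (Fin m) := nonempty_of_nr Ψ' hnΨ'
  have hnt : Nontrivial (Matrix (Fin m) (Fin m) ℂ) := inferInstance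
  have hJ0 := nJ_nonneg h
  have hy00 : 0 ≤ y0 := by rw [hy0]; positivity
  obtain ⟨e⟩ : Nonempty (Fin (L ^ 2) ≃ Site L) := by
    rw [← Fintype.card_eq, Fintype.card_fin, card_site]
  have hN1 : (1 : ℝ) ≤ ((L ^ 2 : ℕ) : ℝ) := by
    have : 1 ≤ L ^ 2 := Nat.one_le_pow _ _ (by omega)
    exact_mod_cast this
  have hy01 : y0 ≤ 1 / 80 := by nlinarith only [hN1, hy00, hNy]
  have hhc := ham_comm h hc
  have hHh : (Vᴴ * ham h L * V).IsHermitian := cmp_herm (ham_herm h hh)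
  have hAn : κ * ‖Vᴴ * ham h L * V‖ ≤ 1 / 4 := by
    refine le_trans ?_ (hNy.trans (by norm_num))
    have h1 : ‖ham h L‖ ≤ (L : ℝ) ^ 2 * nJ h := norm_ham h
    calc κ * ‖Vᴴ * ham h L * V‖ ≤ κ * ((L : ℝ) ^ 2 * nJ h) :=
          mul_le_mul_of_nonneg_left ((norm_cmp hV _).trans h1) hκ
      _ = ((L ^ 2 : ℕ) : ℝ) * y0 := by rw [hy0]; push_cast; ring
  have hnΨ2 : normSq Ψ' = 1 := by rw [← nr_sq, hnΨ', one_pow]
  obtain ⟨g, hg34, hgn, hsp⟩ := spec (Vᴴ * ham h L * V) hHh Δ hΔ Ψ' hnΨ2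
    (ground_cmp hVP hV hhc hgr) κ hκ hAn
  have hg0 : 0 < g := by linarith
  set y : Fin (L ^ 2) → TorOp d L := fun b => ((-κ : ℝ) : ℂ) • term h (e b) with hy
  have hyc : ∀ b, y b * P = P * y b := by
    intro b
    rw [hy]
    simp only []
    rw [Matrix.smul_mul, Matrix.mul_smul, hc]
  have hyn : ∀ b, ‖Vᴴ * y b * V‖ ≤ y0 := by
    intro b
    refine (norm_cmp hV _).trans ?_
    rw [hy]
    simp only []
    rw [norm_smul, Complex.norm_real, Real.norm_eq_abs, abs_neg, abs_of_nonneg hκ, hy0]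
    exact mul_le_mul_of_nonneg_left (norm_term h (e b)) hκ
  have hG0 : 1 + ∑ b, y b = 1 - (κ : ℂ) • ham h L := by
    rw [hy]
    simp only []
    rw [← Finset.smul_sum]
    have : ∑ b, term h (e b) = ham h L := by
      unfold ham
      exact e.sum_comp (fun u => term h u)
    rw [this]
    push_cast
    rw [neg_smul, sub_eq_add_neg]
  have hG : 1 + ∑ b, Vᴴ * y b * V = 1 - (κ : ℂ) • (Vᴴ * ham h L * V) := by
    rw [cmp_sum V hV, hG0, Matrix.mul_sub, Matrix.sub_mul, Matrix.mul_one, hV, Matrix.mul_smul,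
      Matrix.smul_mul]
  have htr := trunc_KA (comb pair) (adjR R' e) ((R' + 1) ^ 4) (adjR_symm e) (adjR_irr e)
    (Nat.one_le_pow _ _ (by omega)) (adjR_card e) q r (fun b => Vᴴ * y b * V) y0 g hy00 hy01 hyn
    (by rw [hG]; exact hgn) hg34 (hNy.trans (by norm_num)) hM hr
  rw [hG] at htr
  obtain ⟨A, hA⟩ := peps_KA reg hL A0 ((-κ : ℝ) : ℂ) h e q r
  have hi := itw_KA (adjR R' e) q r y (fun b => Vᴴ * y b * V) fun b => itw_cmp hVP hV (hyc b)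
  have hA2 : contract A = V *ᵥ (KA (adjR R' e) q (fun b => Vᴴ * y b * V) r *ᵥ φ') := by
    rw [← itw_mulVec hi, hVφ, ← hA]
  refine ⟨g, hg0, A, by rw [hA2, V_range hVP hV], ?_⟩
  have hip : ip Ψ (contract A0) = ip Ψ' φ' := by rw [← hVΨ, ← hVφ, ip_V hV]
  have e1 : contract A - ((g : ℂ) ^ tm q * ip Ψ (contract A0)) • Ψ =
      V *ᵥ (((KA (adjR R' e) q (fun b => Vᴴ * y b * V) r -
        (1 - (κ : ℂ) • (Vᴴ * ham h L * V)) ^ tm q) *ᵥ φ') +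
        ((1 - (κ : ℂ) • (Vᴴ * ham h L * V)) ^ tm q *ᵥ φ' -
          ((g : ℂ) ^ tm q * ip Ψ' φ') • Ψ')) := by
    rw [Matrix.sub_mulVec, hA2, hip]
    conv_lhs => rw [← hVΨ]
    rw [← Matrix.mulVec_smul, ← Matrix.mulVec_sub]
    congr 1
    abel
  rw [e1, nr_V hV]
  refine (nr_add _ _).trans ?_
  have h1 : nr ((KA (adjR R' e) q (fun b => Vᴴ * y b * V) r -
        (1 - (κ : ℂ) • (Vᴴ * ham h L * V)) ^ tm q) *ᵥ φ') ≤
      g ^ tm q * (6 * (((L ^ 2 : ℕ) : ℝ) * Real.exp (100 * (((R' + 1) ^ 4 : ℕ) + 1) ^ 2 *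
          (1 + tm q * y0) - r / (10 * ((R' + 1) ^ 4 : ℕ) * (((R' + 1) ^ 4 : ℕ) + 1) ^ 2))) +
        4 * (tm q * (((L ^ 2 : ℕ) : ℝ) * y0) ^ 2)) := by
    refine (nr_mulVec _ _).trans ?_
    rw [hnφ', mul_one]
    exact htr
  have h2 := hsp (tm q) φ'
  rw [hnφ', mul_one] at h2
  refine (add_le_add h1 h2).trans (le_of_eq ?_)
  ring

end core

/-- Amplification of the overlap in the range of a projection. -/
theorem ampS (d R' : ℕ) (h : BoxOp d (R' + 1)) (hh : h.IsHermitian) (Δ : ℝ) (hΔ : 0 < Δ) :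
    ∃ C : ℝ, 0 < C ∧ ∀ (L : ℕ) [NeZero L], 2 ≤ L → R' + 1 ≤ L →
      ∀ (m : ℕ) (V : Matrix (Site L → Fin d) (Fin m) ℂ) (P : TorOp d L), V * Vᴴ = P →
      Vᴴ * V = 1 → (∀ u : Site L, term h u * P = P * term h u) →
      ∀ Ψ : (Site L → Fin d) → ℂ, normSq Ψ = 1 →
      SectorGround (ham h L) P Δ Ψ → ∀ (D0 : ℕ) (φ : (Site L → Fin d) → ℂ), IsPEPS D0 φ →
      P *ᵥ φ = φ → normSq φ = 1 → ∀ η ε : ℝ, 0 < η → η ≤ ‖ip Ψ φ‖ → 0 < ε → ε ≤ 1 →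
      ∃ (D : ℕ) (ψ : (Site L → Fin d) → ℂ),
        (D : ℝ) ≤ D0 * Real.exp (C * (Real.log L + Real.log (1 / (η * ε)))) ∧
        IsPEPS D ψ ∧ P *ᵥ ψ = ψ ∧ nr (ψ - Ψ) ≤ ε := by
  have hJ0 : 0 ≤ nJ h := nJ_nonneg h
  generalize hJ : nJ h = J at hJ0
  generalize hP : ((Fintype.card (Lm d (R' + 1)) : ℕ) : ℝ) = P
  have hP0 : 0 ≤ P := by rw [← hP]; positivity
  generalize hc1 : 100 * (((((R' + 1) ^ 4 : ℕ) : ℝ)) + 1) ^ 2 = c1
  generalize hc2 : 10 * (((R' + 1) ^ 4 : ℕ) : ℝ) * (((((R' + 1) ^ 4 : ℕ) : ℝ)) + 1) ^ 2 = c2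
  have hc10 : 0 ≤ c1 := by rw [← hc1]; positivity
  have hc20 : 0 < c2 := by rw [← hc2]; positivity
  refine ⟨4 * (P + 1) * (2 * (c2 * (c1 * (2 + 10 * J / Δ) + 10) + 2) + 4) *
    ((2 * R' + 1 : ℕ) : ℝ) ^ 2, by positivity, ?_⟩
  intro L _ hL hLR m V Pr hVP hV hcm Ψ hΨ hgr D0 φ hφ hφP hφ1 η ε hη hηφ hε hε1
  have hnrφ : nr φ = 1 := nr_one φ hφ1
  have hη1 : η ≤ 1 := hηφ.trans (ip_le_one Ψ φ (nr_one Ψ hΨ) hnrφ)
  have hηε : 0 < η * ε := by positivity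
  have hηε1 : η * ε ≤ 1 := mul_le_one₀ hη1 hε.le hε1
  have hΘ0 : 0 ≤ Real.log (1 / (η * ε)) := Real.log_nonneg (by rw [le_div_iff₀ hηε]; linarith)
  have hexpΘ : Real.exp (-Real.log (1 / (η * ε))) = η * ε := by
    rw [one_div, Real.log_inv, neg_neg, Real.exp_log hηε]
  generalize Real.log (1 / (η * ε)) = Θ at hΘ0 hexpΘ ⊢
  have hL2 : (2 : ℝ) ≤ L := by exact_mod_cast hL
  have hlam0 : 1 / 2 ≤ Real.log L := by
    have h1 : Real.log 2 ≤ Real.log L := Real.log_le_log (by norm_num) hL2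
    have := Real.log_two_gt_d9
    linarith
  have hNexp : ((L ^ 2 : ℕ) : ℝ) = Real.exp (2 * Real.log L) := by
    rw [two_mul, Real.exp_add, Real.exp_log (by linarith)]; push_cast; ring
  have hN1 : (1 : ℝ) ≤ ((L ^ 2 : ℕ) : ℝ) := by
    rw [hNexp]; exact Real.one_le_exp (by linarith)
  generalize Real.log L = lam at hlam0 hNexp ⊢
  have hβ0 : 0 ≤ 2 / Δ * (Θ + 2) := by positivity
  have hβΔ : 2 / Δ * (Θ + 2) * Δ / 2 = Θ + 2 := by field_simp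
  have hB0 : 0 ≤ 2 / Δ * (Θ + 2) * J := by positivity
  obtain ⟨q, hM1, hM2, hM3⟩ := par_q (2 / Δ * (Θ + 2) * J) ((L ^ 2 : ℕ) : ℝ) Θ hB0 hN1
  have hM0 : (0 : ℝ) < tm q := by linarith
  obtain ⟨r, hr1, hr2⟩ := par_r c1 c2 (1 + 2 / Δ * (Θ + 2) * J) (2 * lam + Θ + 4) hc20
    (by positivity)
  have hbond := par_bondK c1 c2 Θ lam J Δ r (4 * (P + 1)) (((2 * R' + 1 : ℕ) : ℝ) ^ 2) hc10 hc20.le
    hJ0 hΔ hΘ0 hlam0 (by positivity) (by positivity) hr2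
  generalize hβ : 2 / Δ * (Θ + 2) = β at *
  have hMy : (tm q : ℝ) * (β / tm q * J) = β * J := by field_simp
  have hNy : ((L ^ 2 : ℕ) : ℝ) * (β / tm q * J) ≤ 1 / 80 := by
    have : ((L ^ 2 : ℕ) : ℝ) * (β / tm q * J) = ((L ^ 2 : ℕ) : ℝ) * (β * J) / tm q := by ring
    rw [this]; exact hM2
  have hMN : (tm q : ℝ) * (((L ^ 2 : ℕ) : ℝ) * (β / tm q * J)) ^ 2 ≤ η * ε / 16 := by
    have : (tm q : ℝ) * (((L ^ 2 : ℕ) : ℝ) * (β / tm q * J)) ^ 2 =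
        (((L ^ 2 : ℕ) : ℝ) * (β * J)) ^ 2 / tm q := by field_simp
    rw [this, ← hexpΘ]; exact hM3
  have hNr2 : ((L ^ 2 : ℕ) : ℝ) * Real.exp (100 * (((R' + 1) ^ 4 : ℕ) + 1) ^ 2 *
      (1 + tm q * (β / tm q * J)) -
      r / (10 * ((R' + 1) ^ 4 : ℕ) * (((R' + 1) ^ 4 : ℕ) + 1) ^ 2)) ≤ 1 / 24 * (η * ε) := by
    have h1 : ((L ^ 2 : ℕ) : ℝ) * Real.exp (100 * (((R' + 1) ^ 4 : ℕ) + 1) ^ 2 *
      (1 + tm q * (β / tm q * J)) -
      r / (10 * ((R' + 1) ^ 4 : ℕ) * (((R' + 1) ^ 4 : ℕ) + 1) ^ 2)) ≤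
        Real.exp (-4) * (η * ε) := by
      rw [hNexp, ← hexpΘ, ← Real.exp_add, ← Real.exp_add]
      apply Real.exp_le_exp.2
      rw [hMy, hc1, hc2]
      linarith
    exact h1.trans (mul_le_mul_of_nonneg_right exp_four hηε.le)
  obtain ⟨A0, rfl⟩ := hφ
  obtain ⟨g, hg0, A, hPA, hA⟩ := coreS hLR h hh Δ hΔ hVP hV hcm Ψ hΨ hgr A0 hφP hnrφ q r (β / tm q)
    (β / tm q * J) (by positivity) (by rw [hJ]) hNy
    (by
      have : 2 * (tm q : ℝ) * (((L ^ 2 : ℕ) : ℝ) * (β / tm q * J)) ^ 2 =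
        2 * (tm q * (((L ^ 2 : ℕ) : ℝ) * (β / tm q * J)) ^ 2) := by ring
      rw [this]; linarith)
    (by linarith)
  have ha0 : 0 < ‖ip Ψ (contract A0)‖ := lt_of_lt_of_le hη hηφ
  have hgM : 0 < g ^ tm q := by positivity
  generalize hq : (g : ℂ) ^ tm q * ip Ψ (contract A0) = p at hA
  have hqn : ‖p‖ = g ^ tm q * ‖ip Ψ (contract A0)‖ := by
    rw [← hq, norm_mul, norm_pow, Complex.norm_real, Real.norm_eq_abs, abs_of_pos hg0]
  have hq0 : 0 < ‖p‖ := by rw [hqn]; positivity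
  have hqne : p ≠ 0 := norm_pos_iff.1 hq0
  refine ⟨Fintype.card (Fin D0 × (Fin (2 * R' + 1) × Fin (2 * R' + 1) → LabT d (R' + 1) q r)),
    p⁻¹ • contract A, ?_, (isPEPS_contract A).smul _, by rw [Matrix.mulVec_smul, hPA], ?_⟩
  · refine (card_bdK count D0 q r).trans ?_
    rw [hP]
    exact mul_le_mul_of_nonneg_left (Real.exp_le_exp.2 hbond) (Nat.cast_nonneg _)
  · have e2 : p⁻¹ • contract A - Ψ = p⁻¹ • (contract A - p • Ψ) := by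
      rw [smul_sub, smul_smul, inv_mul_cancel₀ hqne, one_smul]
    rw [e2, nr_smul, norm_inv, hqn]
    rw [inv_mul_le_iff₀ (by positivity)]
    refine hA.trans ?_
    rw [mul_assoc (g ^ tm q) _ ε]
    refine mul_le_mul_of_nonneg_left ?_ hgM.le
    have h3 : Real.exp (-(β / tm q * tm q * Δ / 2)) ≤ 1 / 4 * (η * ε) := by
      have h4 : -(β / tm q * tm q * Δ / 2) = -2 + -Θ := by
        have : β / tm q * tm q = β := by field_simp
        rw [this, hβΔ]; ring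
      rw [h4, Real.exp_add, hexpΘ]
      exact mul_le_mul_of_nonneg_right exp_two hηε.le
    have h5 : η * ε ≤ ‖ip Ψ (contract A0)‖ * ε := mul_le_mul_of_nonneg_right hηφ hε.le
    linarith

end Pool.Agent.Helper22P
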