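import Pool.Agent.TH235.PQ.Final

/-! Compression of operators to the range of a projection. -/

set_option autoImplicit false
set_option linter.unusedSectionVars false

open scoped BigOperators Matrix InnerProductSpace
open Finset Pool.Agent.TH235.PP Pool.Agent.TH235.PQ

namespace Pool.Agent.Helper22P

section

variable {n m : Type*} [Fintype n] [DecidableEq n] [Fintype m] [DecidableEq m]

/-- the range of a projection is the range of an isometry -/
theorem exists_iso (P : Matrix n n ℂ) (hP : P.IsHermitian) (hP2 : P * P = P) :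
    ∃ (r : ℕ) (V : Matrix n (Fin r) ℂ), Vᴴ * V = 1 ∧ V * Vᴴ = P := by
  classical
  obtain ⟨U, hU, hU', hdec⟩ := spec_dec P hP
  set lam := hP.eigenvalues with hlam
  have hPd : P = U * Matrix.diagonal (fun j => ((lam j : ℝ) : ℂ)) * Uᴴ := by
    have h1 := hdec 1
    have h2 : (Matrix.diagonal (fun j => ((1 - 1 * lam j : ℝ) : ℂ)) : Matrix n n ℂ) =
        1 - Matrix.diagonal (fun j => ((lam j : ℝ) : ℂ)) := by
      rw [← Matrix.diagonal_one, Matrix.diagonal_sub]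
      congr 1
      funext j
      push_cast
      ring
    rw [h2, Matrix.mul_sub, Matrix.sub_mul, Matrix.mul_one, hU'] at h1
    have h3 : ((1 : ℝ) : ℂ) • P = P := by simp
    rw [h3] at h1
    have := sub_right_injective h1
    exact this
  have hd : Matrix.diagonal (fun j => ((lam j : ℝ) : ℂ)) *
      Matrix.diagonal (fun j => ((lam j : ℝ) : ℂ)) =
      (Matrix.diagonal (fun j => ((lam j : ℝ) : ℂ)) : Matrix n n ℂ) := by
    have h1 : Uᴴ * P * U = Matrix.diagonal (fun j => ((lam j : ℝ) : ℂ)) := by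
      rw [hPd]
      calc Uᴴ * (U * Matrix.diagonal (fun j => ((lam j : ℝ) : ℂ)) * Uᴴ) * U
          = (Uᴴ * U) * Matrix.diagonal (fun j => ((lam j : ℝ) : ℂ)) * (Uᴴ * U) := by
            simp only [Matrix.mul_assoc]
        _ = _ := by rw [hU, Matrix.one_mul, Matrix.mul_one]
    calc Matrix.diagonal (fun j => ((lam j : ℝ) : ℂ)) *
          Matrix.diagonal (fun j => ((lam j : ℝ) : ℂ)) = (Uᴴ * P * U) * (Uᴴ * P * U) := by
            rw [h1]
      _ = Uᴴ * (P * (U * Uᴴ) * P) * U := by simp only [Matrix.mul_assoc]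
      _ = Uᴴ * P * U := by rw [hU', Matrix.mul_one, hP2]
      _ = _ := h1
  have h01 : ∀ j, lam j = 0 ∨ lam j = 1 := by
    intro j
    rw [Matrix.diagonal_mul_diagonal] at hd
    have h1 := congrFun (congrFun hd j) j
    rw [Matrix.diagonal_apply_eq, Matrix.diagonal_apply_eq, ← Complex.ofReal_mul] at h1
    have h2 : lam j * lam j = lam j := by exact_mod_cast h1
    rcases eq_or_ne (lam j) 0 with h3 | h3
    · exact Or.inl h3
    · exact Or.inr (mul_left_cancel₀ h3 (by rw [h2, mul_one]))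
  set S : Finset n := univ.filter fun j => lam j = 1 with hS
  set e := S.equivFin with he
  refine ⟨S.card, U.submatrix id fun k => (e.symm k).1, ?_, ?_⟩
  · ext k l
    rw [Matrix.mul_apply]
    have h1 := congrFun (congrFun hU (e.symm k).1) (e.symm l).1
    rw [Matrix.mul_apply] at h1
    simp only [Matrix.conjTranspose_apply, Matrix.submatrix_apply, id_eq] at h1 ⊢
    rw [h1, Matrix.one_apply, Matrix.one_apply]
    by_cases hkl : k = l
    · subst hkl; simp
    · rw [if_neg hkl, if_neg]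
      intro h2
      exact hkl (e.symm.injective (Subtype.ext h2))
  · ext i j
    rw [Matrix.mul_apply]
    simp only [Matrix.conjTranspose_apply, Matrix.submatrix_apply, id_eq]
    have h1 : ∑ k : Fin S.card, U i (e.symm k).1 * star (U j (e.symm k).1) =
        ∑ k ∈ S, U i k * star (U j k) := by
      rw [← Finset.sum_coe_sort S]
      exact e.symm.sum_comp (fun k : S => U i k.1 * star (U j k.1))
    rw [h1, hPd, Matrix.mul_apply, hS, Finset.sum_filter]
    refine Finset.sum_congr rfl fun k _ => ?_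
    rw [Matrix.mul_diagonal, Matrix.conjTranspose_apply]
    rcases h01 k with h2 | h2
    · rw [if_neg (by rw [h2]; exact zero_ne_one), h2]; simp
    · rw [if_pos h2, h2]; simp

variable {V : Matrix n m ℂ} {P : Matrix n n ℂ}

theorem ip_star {l : Type*} [Fintype l] (u v : l → ℂ) : ip u v = star u ⬝ᵥ v := rfl

theorem ip_V (hV : Vᴴ * V = 1) (x y : m → ℂ) : ip (V *ᵥ x) (V *ᵥ y) = ip x y := by
  rw [ip_star, ip_star, Matrix.star_mulVec, ← Matrix.dotProduct_mulVec, Matrix.mulVec_mulVec, hV,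
    Matrix.one_mulVec]

theorem ip_adj (x : m → ℂ) (y : n → ℂ) : ip (V *ᵥ x) y = ip x (Vᴴ *ᵥ y) := by
  rw [ip_star, ip_star, Matrix.star_mulVec, ← Matrix.dotProduct_mulVec]

theorem nr_ip {l : Type*} [Fintype l] [DecidableEq l] (u : l → ℂ) :
    (nr u : ℂ) ^ 2 = ip u u := by
  rw [ip_eq, inner_self_eq_norm_sq_to_K]
  rfl

theorem nr_V (hV : Vᴴ * V = 1) (x : m → ℂ) : nr (V *ᵥ x) = nr x := by
  have h2 : (nr (V *ᵥ x) : ℂ) ^ 2 = (nr x : ℂ) ^ 2 := by rw [nr_ip, nr_ip, ip_V hV]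
  have h3 : nr (V *ᵥ x) ^ 2 = nr x ^ 2 := by exact_mod_cast h2
  exact (pow_left_inj₀ (nr_nonneg _) (nr_nonneg _) two_ne_zero).1 h3

open scoped Matrix.Norms.L2Operator in
theorem norm_V (hV : Vᴴ * V = 1) [Nonempty m] : ‖V‖ ≤ 1 := by
  have h1 := Matrix.l2_opNorm_conjTranspose_mul_self V
  rw [hV, norm_one] at h1
  nlinarith only [h1, norm_nonneg V]

open scoped Matrix.Norms.L2Operator in
theorem norm_cmp (hV : Vᴴ * V = 1) [Nonempty m] (A : Matrix n n ℂ) : ‖Vᴴ * A * V‖ ≤ ‖A‖ := by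
  have h1 := norm_V hV
  have h2 : ‖Vᴴ‖ ≤ 1 := by rw [Matrix.l2_opNorm_conjTranspose]; exact h1
  calc ‖Vᴴ * A * V‖ ≤ ‖Vᴴ * A‖ * ‖V‖ := Matrix.l2_opNorm_mul _ _
    _ ≤ (‖Vᴴ‖ * ‖A‖) * ‖V‖ :=
        mul_le_mul_of_nonneg_right (Matrix.l2_opNorm_mul _ _) (norm_nonneg _)
    _ ≤ (1 * ‖A‖) * 1 := by gcongr
    _ = ‖A‖ := by ring

/-- `V` intertwines `a` and `b` -/
def Itw (V : Matrix n m ℂ) (a : Matrix n n ℂ) (b : Matrix m m ℂ) : Prop := a * V = V * b

theorem itw_cmp (hVP : V * Vᴴ = P) (hV : Vᴴ * V = 1) {a : Matrix n n ℂ} (ha : a * P = P * a) :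
    Itw V a (Vᴴ * a * V) := by
  unfold Itw
  calc a * V = a * (V * (Vᴴ * V)) := by rw [hV, Matrix.mul_one]
    _ = (a * P) * V := by rw [← hVP]; simp only [Matrix.mul_assoc]
    _ = (P * a) * V := by rw [ha]
    _ = V * (Vᴴ * a * V) := by rw [← hVP]; simp only [Matrix.mul_assoc]

theorem itw_one : Itw V (1 : Matrix n n ℂ) 1 := by
  unfold Itw
  rw [Matrix.one_mul, Matrix.mul_one]

theorem itw_mul {a a' : Matrix n n ℂ} {b b' : Matrix m m ℂ} (h : Itw V a b) (h' : Itw V a' b') :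
    Itw V (a * a') (b * b') := by
  unfold Itw at *
  rw [Matrix.mul_assoc, h', ← Matrix.mul_assoc, h, Matrix.mul_assoc]

theorem itw_sum {ι : Type*} (s : Finset ι) (f : ι → Matrix n n ℂ) (g : ι → Matrix m m ℂ)
    (h : ∀ i ∈ s, Itw V (f i) (g i)) : Itw V (∑ i ∈ s, f i) (∑ i ∈ s, g i) := by
  unfold Itw
  rw [Matrix.sum_mul, Matrix.mul_sum]
  exact Finset.sum_congr rfl h

theorem itw_op {N : ℕ} (y : Fin N → Matrix n n ℂ) (z : Fin N → Matrix m m ℂ)
    (h : ∀ b, Itw V (y b) (z b)) : Itw V (op y) (op z) := by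
  induction N with
  | zero => rw [op_zero, op_zero]; exact itw_one
  | succ N ih =>
    rw [op_succ, op_succ]
    exact itw_mul (h 0) (ih _ _ fun b => h b.succ)

theorem itw_KA {N : ℕ} (adj : Fin N → Fin N → Prop) (q r : ℕ) (y : Fin N → Matrix n n ℂ)
    (z : Fin N → Matrix m m ℂ) (h : ∀ b, Itw V (y b) (z b)) :
    Itw V (KA adj q y r) (KA adj q z r) := by
  unfold KA
  refine itw_sum _ _ _ fun F _ => ?_
  split_ifs
  · unfold PF pr
    refine itw_op _ _ fun t => itw_op _ _ fun b => ?_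
    beta_reduce
    split_ifs
    · exact h b
    · exact itw_one
  · unfold Itw
    rw [Matrix.zero_mul, Matrix.mul_zero]

theorem itw_mulVec {a : Matrix n n ℂ} {b : Matrix m m ℂ} (h : Itw V a b) (x : m → ℂ) :
    a *ᵥ (V *ᵥ x) = V *ᵥ (b *ᵥ x) := by
  rw [Matrix.mulVec_mulVec, Matrix.mulVec_mulVec, h]

/-- `ψ` spans the ground space of the restriction of `H` to the range of `P`: it lies in this range,
its eigenvalue `E` is simple on the range of `P`, and every other eigenvalue of `H` on the range of `P`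
is at least `E + Δ`. -/
def SectorGround (H P : Matrix n n ℂ) (Δ : ℝ) (ψ : n → ℂ) : Prop :=
  P *ᵥ ψ = ψ ∧ ∃ E : ℝ, H *ᵥ ψ = (E : ℂ) • ψ ∧
    (∀ φ, P *ᵥ φ = φ → H *ᵥ φ = (E : ℂ) • φ → ∃ c : ℂ, φ = c • ψ) ∧
    ∀ (E' : ℝ) (φ : n → ℂ), φ ≠ 0 → P *ᵥ φ = φ → H *ᵥ φ = (E' : ℂ) • φ → E' = E ∨ E + Δ ≤ E'

theorem V_range (hVP : V * Vᴴ = P) (hV : Vᴴ * V = 1) (x : m → ℂ) : P *ᵥ (V *ᵥ x) = V *ᵥ x := by
  rw [Matrix.mulVec_mulVec, ← hVP, Matrix.mul_assoc, hV, Matrix.mul_one]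

theorem V_back (hVP : V * Vᴴ = P) {x : n → ℂ} (hx : P *ᵥ x = x) : V *ᵥ (Vᴴ *ᵥ x) = x := by
  rw [Matrix.mulVec_mulVec, hVP, hx]

theorem V_inj (hV : Vᴴ * V = 1) {x y : m → ℂ} (h : V *ᵥ x = V *ᵥ y) : x = y := by
  have := congrArg (fun z => Vᴴ *ᵥ z) h
  simp only [Matrix.mulVec_mulVec, hV, Matrix.one_mulVec] at this
  exact this

/-- the compressed Hamiltonian is gapped -/
theorem ground_cmp (hVP : V * Vᴴ = P) (hV : Vᴴ * V = 1) {H : Matrix n n ℂ} (hH : H * P = P * H)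
    {Δ : ℝ} {ψ : n → ℂ} (h : SectorGround H P Δ ψ) :
    IsGappedGround (Vᴴ * H * V) Δ (Vᴴ *ᵥ ψ) := by
  obtain ⟨hψ, E, h1, h2, h3⟩ := h
  have hi := itw_cmp hVP hV hH
  refine ⟨E, ?_, ?_, ?_⟩
  · apply V_inj hV
    rw [← itw_mulVec hi, V_back hVP hψ, h1, Matrix.mulVec_smul, V_back hVP hψ]
  · intro φ hφ
    obtain ⟨c, hc⟩ := h2 (V *ᵥ φ) (V_range hVP hV φ) (by
      rw [itw_mulVec hi, hφ, Matrix.mulVec_smul])
    refine ⟨c, V_inj hV ?_⟩
    rw [hc, Matrix.mulVec_smul, V_back hVP hψ]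
  · intro E' φ hφ0 hφ
    refine h3 E' (V *ᵥ φ) ?_ (V_range hVP hV φ) (by rw [itw_mulVec hi, hφ, Matrix.mulVec_smul])
    intro h0
    apply hφ0
    apply V_inj hV
    rw [h0, Matrix.mulVec_zero]

theorem cmp_herm {H : Matrix n n ℂ} (hH : H.IsHermitian) : (Vᴴ * H * V).IsHermitian := by
  unfold Matrix.IsHermitian
  rw [Matrix.conjTranspose_mul, Matrix.conjTranspose_mul, Matrix.conjTranspose_conjTranspose,
    hH.eq, Matrix.mul_assoc]

/-- The dimension of the space spanned by the eigenvectors of `H` in the range of `P` with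
eigenvalues at most `E`. -/
noncomputable def sectorStates (H P : Matrix n n ℂ) (E : ℝ) : ℕ :=
  Module.finrank ℂ (Submodule.span ℂ
    {φ : n → ℂ | P *ᵥ φ = φ ∧ ∃ E' : ℝ, E' ≤ E ∧ H *ᵥ φ = (E' : ℂ) • φ})

theorem states_cmp (hVP : V * Vᴴ = P) (hV : Vᴴ * V = 1) {H : Matrix n n ℂ} (hH : H * P = P * H)
    (hHh : (Vᴴ * H * V).IsHermitian) (E : ℝ) :
    (univ.filter fun j => hHh.eigenvalues j ≤ E).card ≤ sectorStates H P E := by
  classical
  have hi := itw_cmp hVP hV hH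
  set b := hHh.eigenvectorBasis with hb
  set S := Submodule.span ℂ
    {φ : n → ℂ | P *ᵥ φ = φ ∧ ∃ E' : ℝ, E' ≤ E ∧ H *ᵥ φ = (E' : ℂ) • φ} with hS
  have hAb : ∀ j, (Vᴴ * H * V) *ᵥ (b j).ofLp = (hHh.eigenvalues j : ℂ) • (b j).ofLp := by
    intro j
    have := hHh.mulVec_eigenvectorBasis j
    rw [this]
    rfl
  set J := {j : m // hHh.eigenvalues j ≤ E} with hJ
  have hmem : ∀ j : J, V *ᵥ (b j.1).ofLp ∈ S := by
    intro j
    refine Submodule.subset_span ⟨V_range hVP hV _, hHh.eigenvalues j.1, j.2, ?_⟩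
    rw [itw_mulVec hi, hAb, Matrix.mulVec_smul]
  have hli : LinearIndependent ℂ (fun j : J => V *ᵥ (b j.1).ofLp) := by
    have h1 : LinearIndependent ℂ (fun j : J => b j.1) :=
      b.orthonormal.linearIndependent.comp _ Subtype.val_injective
    have h2 : LinearIndependent ℂ (fun j : J => (WithLp.linearEquiv 2 ℂ (m → ℂ)) (b j.1)) :=
      h1.map' (WithLp.linearEquiv 2 ℂ (m → ℂ)).toLinearMap (LinearEquiv.ker _)
    have h3 : LinearMap.ker (Matrix.mulVecLin V) = ⊥ := by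
      rw [LinearMap.ker_eq_bot]
      intro x y hxy
      exact V_inj hV hxy
    exact h2.map' (Matrix.mulVecLin V) h3
  have hli' : LinearIndependent ℂ (fun j : J => (⟨V *ᵥ (b j.1).ofLp, hmem j⟩ : S)) :=
    LinearIndependent.of_comp S.subtype hli
  have h4 := hli'.fintype_card_le_finrank
  rw [Fintype.card_subtype] at h4
  exact h4

end

end Pool.Agent.Helper22P
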