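import Pool.Agent.Helper22P.Ther
import Pool.Agent.Y159.PepsScale

/-! Bond dimension of the ground state of a sector from the number of low energy states of the
sector. -/

set_option autoImplicit false
set_option linter.unusedSectionVars false

open scoped BigOperators Matrix InnerProductSpace
open Finset Pool.Agent.TH235.PP Pool.Agent.TH235.PQ
  Pool.Agent.Results.MP_953b23_mp.OverlapBoosting
  Pool.Agent.Results.MP_953b23_mp.ThermalCriterion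

namespace Pool.Agent.Helper22P

/-- bond dimension from the partition function of the sector -/
theorem therS (d R' : ℕ) (h : BoxOp d (R' + 1)) (hh : h.IsHermitian) (Δ : ℝ) (hΔ : 0 < Δ) :
    ∃ C : ℝ, 0 < C ∧ ∀ (L : ℕ) [NeZero L], 2 ≤ L → R' + 1 ≤ L →
      ∀ (m : ℕ) (V : Matrix (Site L → Fin d) (Fin m) ℂ) (P : TorOp d L), V * Vᴴ = P →
      Vᴴ * V = 1 → (∀ u : Site L, term h u * P = P * term h u) →
      ∀ (D0 : ℕ), (∀ t : Site L → Fin d, IsPEPS D0 (P *ᵥ Pi.single t 1)) →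
      ∀ Ψ : (Site L → Fin d) → ℂ, normSq Ψ = 1 →
      SectorGround (ham h L) P Δ Ψ → ∀ (hH : (Vᴴ * ham h L * V).IsHermitian) (β ε : ℝ), 0 ≤ β →
      0 < ε → ε ≤ 1 → ∃ (D : ℕ) (ψ : (Site L → Fin d) → ℂ),
        (D : ℝ) ≤ D0 * Real.exp (C * (β + Real.log L + Real.log (∑ j, Real.exp (-(β *
          (hH.eigenvalues j - (ip Ψ (ham h L *ᵥ Ψ)).re)))) + Real.log (1 / ε))) ∧
        IsPEPS D ψ ∧ P *ᵥ ψ = ψ ∧ nr (ψ - Ψ) ≤ ε := by
  obtain ⟨C0, hC0, hq⟩ := ampS d R' h hh Δ hΔ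
  have hJ0 : 0 ≤ nJ h := nJ_nonneg h
  obtain ⟨K, hK⟩ : ∃ K : ℕ, K = (R' + 1) ^ 4 := ⟨_, rfl⟩
  have hK1 : 1 ≤ K := by rw [hK]; exact Nat.one_le_pow _ _ (Nat.succ_pos _)
  have hK1' : (1 : ℝ) ≤ K := by exact_mod_cast hK1
  obtain ⟨c1, hc1⟩ : ∃ c1 : ℝ, c1 = 100 * ((K : ℝ) + 1) ^ 2 := ⟨_, rfl⟩
  obtain ⟨c2, hc2⟩ : ∃ c2 : ℝ, c2 = 10 * (K : ℝ) * ((K : ℝ) + 1) ^ 2 := ⟨_, rfl⟩
  have hc10 : 0 ≤ c1 := by rw [hc1]; positivity
  have hc20 : 0 < c2 := by rw [hc2]; positivity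
  refine ⟨4 * ((Fintype.card (Lm d (R' + 1)) : ℕ) + 1) *
    (2 * (c2 * (c1 * (2 + nJ h) + 10) + 2) + 4) * ((2 * R' + 1 : ℕ) : ℝ) ^ 2 + 9 * C0,
    by positivity, ?_⟩
  intro L _ hL hRL m V P hVP hV hcm D0 hD0 Ψ hΨ hgr hH β ε hβ hε hε1
  have hL2 : (2 : ℝ) ≤ L := by exact_mod_cast hL
  have hlam0 : 1 / 2 ≤ Real.log L := by
    have h1 : Real.log 2 ≤ Real.log L := Real.log_le_log (by norm_num) hL2
    have := Real.log_two_gt_d9
    linarith
  have hNexp : ((L ^ 2 : ℕ) : ℝ) = Real.exp (2 * Real.log L) := by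
    rw [two_mul, Real.exp_add, Real.exp_log (by linarith)]; push_cast; ring
  have hN1 : (1 : ℝ) ≤ ((L ^ 2 : ℕ) : ℝ) := by
    rw [hNexp]; exact Real.one_le_exp (by linarith)
  have hT0 : 0 ≤ Real.log (1 / ε) := Real.log_nonneg (by rw [le_div_iff₀ hε]; linarith)
  have hB0 : 0 ≤ β * nJ h := by positivity
  obtain ⟨q, hM1, hM2, hM3⟩ := par_q (β * nJ h) ((L ^ 2 : ℕ) : ℝ) 0 hB0 hN1
  have hM0 : (0 : ℝ) < tm q := by linarith
  obtain ⟨r, hr1, hr2⟩ := par_r c1 c2 (1 + β * nJ h) (2 * Real.log L + 4) hc20 (by positivity)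
  have hNy : ((L ^ 2 : ℕ) : ℝ) * (β / tm q * nJ h) ≤ 1 / 80 := by
    have : ((L ^ 2 : ℕ) : ℝ) * (β / tm q * nJ h) = ((L ^ 2 : ℕ) : ℝ) * (β * nJ h) / tm q := by
      ring
    rw [this]; exact hM2
  have hMN : (tm q : ℝ) * (((L ^ 2 : ℕ) : ℝ) * (β / tm q * nJ h)) ^ 2 ≤ 1 / 16 := by
    have : (tm q : ℝ) * (((L ^ 2 : ℕ) : ℝ) * (β / tm q * nJ h)) ^ 2 =
        (((L ^ 2 : ℕ) : ℝ) * (β * nJ h)) ^ 2 / tm q := by field_simp
    rw [this]
    refine hM3.trans (le_of_eq ?_)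
    rw [neg_zero, Real.exp_zero]
  have hrr : ((L ^ 2 : ℕ) : ℝ) * Real.exp (100 * (K + 1) ^ 2 * (1 + β * nJ h) -
      r / (10 * K * (K + 1) ^ 2)) ≤ 1 / 24 := by
    refine le_trans ?_ exp_four
    rw [hNexp, ← Real.exp_add]
    apply Real.exp_le_exp.2
    rw [hc1, hc2] at hr1
    linarith
  have hZ1 : 1 ≤ ∑ j, Real.exp (-(β * (hH.eigenvalues j - (ip Ψ (ham h L *ᵥ Ψ)).re))) := by
    have hnrΨ : nr Ψ = 1 := nr_one Ψ hΨ
    obtain ⟨E, hE, hsimple, hgap⟩ := ground_cmp hVP hV (ham_comm h hcm) hgr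
    have hVΨ : V *ᵥ (Vᴴ *ᵥ Ψ) = Ψ := V_back hVP hgr.1
    have hnΨ' : nr (Vᴴ *ᵥ Ψ) = 1 := by rw [← nr_V hV, hVΨ, hnrΨ]
    have hnΨ2 : normSq (Vᴴ *ᵥ Ψ) = 1 := by rw [← nr_sq, hnΨ', one_pow]
    have hiH := itw_cmp hVP hV (ham_comm h hcm)
    have hEE : (ip Ψ (ham h L *ᵥ Ψ)).re = E := by
      have e1 : ham h L *ᵥ Ψ = (E : ℂ) • Ψ := by
        conv_lhs => rw [← hVΨ]
        rw [itw_mulVec hiH, hE, Matrix.mulVec_smul, hVΨ]
      rw [e1, ip_smul_right, ip_self_one Ψ hΨ, mul_one, Complex.ofReal_re]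
    obtain ⟨-, -, -, j0, hj0⟩ := eig_facts (Vᴴ * ham h L * V) hH Δ hΔ _ hnΨ2 E hE hgap
    have h1 := Finset.single_le_sum (f := fun j => Real.exp (-(β * (hH.eigenvalues j -
      (ip Ψ (ham h L *ᵥ Ψ)).re)))) (fun j _ => (Real.exp_pos _).le) (mem_univ j0)
    refine le_trans (le_of_eq ?_) h1
    rw [hj0, hEE]
    simp
  obtain ⟨φ, hφ, hφP, hφ1, hov⟩ := therm_coreS hRL h Δ hΔ hVP hV hcm D0 hD0 Ψ hΨ hgr hH β hβ q r K
    hK hNy hMN hrr
  generalize (∑ j, Real.exp (-(β * (hH.eigenvalues j - (ip Ψ (ham h L *ᵥ Ψ)).re)))) = Z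
    at hZ1 hov ⊢
  have hZs : 0 < Real.sqrt Z := Real.sqrt_pos.2 (by linarith)
  obtain ⟨D, ψ, hD, hψ, hPψ, herr⟩ := hq L hL hRL m V P hVP hV hcm Ψ hΨ hgr _ φ hφ hφP hφ1
    (1 / (18 * Real.sqrt Z)) ε (by positivity) hov hε hε1
  refine ⟨D, ψ, hD.trans ?_, hψ, hPψ, herr⟩
  rw [log_eta Z ε hZ1 hε]
  have hW0 : 0 ≤ Real.log Z := Real.log_nonneg hZ1
  have h18 := log_18
  have h180 : 0 ≤ Real.log 18 := Real.log_nonneg (by norm_num)
  generalize Real.log Z = W at hW0 ⊢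
  generalize Real.log (1 / ε) = T at hT0 ⊢
  generalize Real.log 18 = v at h18 h180 ⊢
  generalize Real.log L = lam at hlam0 hNexp hr1 hr2 ⊢
  have hpar := ther_par β lam W T (nJ h) c1 c2 r (β + lam + W + T) hβ hlam0 hW0 hT0 hJ0 hc10 hc20
    hr2 rfl
  have hcard := card_bdK count (d := d) (R' := R') D0 q r
  have hP0 : (0 : ℝ) ≤ ((Fintype.card (Lm d (R' + 1)) : ℕ) : ℝ) := Nat.cast_nonneg _
  generalize ((Fintype.card (Lm d (R' + 1)) : ℕ) : ℝ) = P at *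
  generalize hs : β + lam + W + T = s at *
  have hs0 : 0 ≤ s := by linarith
  refine (mul_le_mul hcard (Real.exp_le_exp.2 (mul_le_mul_of_nonneg_left
    (show lam + (v + W / 2 + T) ≤ 9 * s by linarith) hC0.le))
    (Real.exp_pos _).le (by positivity)).trans ?_
  rw [mul_assoc, ← Real.exp_add]
  refine mul_le_mul_of_nonneg_left (Real.exp_le_exp.2 ?_) (Nat.cast_nonneg _)
  have h5 := mul_le_mul_of_nonneg_left hpar (by positivity : (0 : ℝ) ≤ 4 * (P + 1))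
  have h6 := mul_le_mul_of_nonneg_right h5 (by positivity : (0 : ℝ) ≤ ((2 * R' + 1 : ℕ) : ℝ) ^ 2)
  refine (add_le_add h6 le_rfl).trans (le_of_eq ?_)
  ring

/-- the eigenvalues of the compressed Hamiltonian are at least the energy of the ground state -/
theorem eig_ge {d R' L : ℕ} [NeZero L] (h : BoxOp d (R' + 1)) (Δ : ℝ) (hΔ : 0 < Δ) {m : ℕ}
    {V : Matrix (Site L → Fin d) (Fin m) ℂ} {P : TorOp d L} (hVP : V * Vᴴ = P) (hV : Vᴴ * V = 1)
    (hcm : ∀ u : Site L, term h u * P = P * term h u) (Ψ : (Site L → Fin d) → ℂ)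
    (hΨ : normSq Ψ = 1) (hgr : SectorGround (ham h L) P Δ Ψ)
    (hH : (Vᴴ * ham h L * V).IsHermitian) (j : Fin m) :
    (ip Ψ (ham h L *ᵥ Ψ)).re ≤ hH.eigenvalues j := by
  have hnrΨ : nr Ψ = 1 := nr_one Ψ hΨ
  obtain ⟨E, hE, hsimple, hgap⟩ := ground_cmp hVP hV (ham_comm h hcm) hgr
  have hVΨ : V *ᵥ (Vᴴ *ᵥ Ψ) = Ψ := V_back hVP hgr.1
  have hnΨ' : nr (Vᴴ *ᵥ Ψ) = 1 := by rw [← nr_V hV, hVΨ, hnrΨ]
  have hnΨ2 : normSq (Vᴴ *ᵥ Ψ) = 1 := by rw [← nr_sq, hnΨ', one_pow]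
  have hiH := itw_cmp hVP hV (ham_comm h hcm)
  have hEE : (ip Ψ (ham h L *ᵥ Ψ)).re = E := by
    have e1 : ham h L *ᵥ Ψ = (E : ℂ) • Ψ := by
      conv_lhs => rw [← hVΨ]
      rw [itw_mulVec hiH, hE, Matrix.mulVec_smul, hVΨ]
    rw [e1, ip_smul_right, ip_self_one Ψ hΨ, mul_one, Complex.ofReal_re]
  obtain ⟨-, -, h3, -⟩ := eig_facts (Vᴴ * ham h L * V) hH Δ hΔ _ hnΨ2 E hE hgap
  rw [hEE]
  exact h3 j

/-- The data of a sector on the torus of side `L`: `P` is an orthogonal projection which commutes with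
all the terms of the Hamiltonian; the unit vector `ψ` is the ground state of the restriction of the
Hamiltonian to the range of `P`, with gap `Δ`. -/
structure Sector {d R : ℕ} (h : BoxOp d R) (Δ : ℝ) (L : ℕ) [NeZero L] (P : TorOp d L)
    (ψ : (Site L → Fin d) → ℂ) : Prop where
  herm : P.IsHermitian
  idem : P * P = P
  comm : ∀ u : Site L, term h u * P = P * term h u
  unit : normSq ψ = 1
  ground : SectorGround (ham h L) P Δ ψ

/-- For all large `L` the vector `Ψ L` is approximated within `δ L` by a PEPS which lies in the range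
of `P L` and has bond dimension at most `exp (C (log L)^k)`. -/
def SectorApprox {d : ℕ} (P : ∀ L : ℕ, TorOp d L) (Ψ : ∀ L : ℕ, (Site L → Fin d) → ℂ) (k : ℕ)
    (C : ℝ) (δ : ℕ → ℝ) : Prop :=
  ∃ L₀ : ℕ, ∀ (L : ℕ) [NeZero L], L₀ ≤ L → ∃ (D : ℕ) (ψ : (Site L → Fin d) → ℂ),
    (D : ℝ) ≤ Real.exp (C * Real.log L ^ k) ∧ IsPEPS D ψ ∧ P L *ᵥ ψ = ψ ∧
      Real.sqrt (normSq (ψ - Ψ L)) ≤ δ L

/-- For all large `L` some unit PEPS in the range of `P L`, of bond dimension at most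
`exp (C (log L)^k)`, has overlap at least `exp (-C (log L)^k)` with `Ψ L`. -/
def SectorOverlap {d : ℕ} (P : ∀ L : ℕ, TorOp d L) (Ψ : ∀ L : ℕ, (Site L → Fin d) → ℂ) (k : ℕ)
    (C : ℝ) : Prop :=
  ∃ L₀ : ℕ, ∀ (L : ℕ) [NeZero L], L₀ ≤ L → ∃ (D : ℕ) (φ : (Site L → Fin d) → ℂ),
    (D : ℝ) ≤ Real.exp (C * Real.log L ^ k) ∧ IsPEPS D φ ∧ P L *ᵥ φ = φ ∧ normSq φ = 1 ∧
      Real.exp (-(C * Real.log L ^ k)) ≤ ‖ip (Ψ L) φ‖

/-- For all large `L`: the projection `P L` maps the vectors of the product basis to PEPS of bond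
dimension at most `exp (C (log L)^k)`, and for every natural number `m` the eigenvectors of the
Hamiltonian in the range of `P L` with eigenvalues at most `E + m`, where `E` is the energy of `Ψ L`,
span a space of dimension at most `exp (C (m + 1) (log L)^k)`. -/
def FewSectorStates {d R : ℕ} (h : BoxOp d R) (P : ∀ L : ℕ, TorOp d L)
    (Ψ : ∀ L : ℕ, (Site L → Fin d) → ℂ) (k : ℕ) (C : ℝ) : Prop :=
  ∃ L₀ : ℕ, ∀ (L : ℕ) [NeZero L], L₀ ≤ L →
    (∃ D : ℕ, (D : ℝ) ≤ Real.exp (C * Real.log L ^ k) ∧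
      ∀ t : Site L → Fin d, IsPEPS D (P L *ᵥ Pi.single t 1)) ∧
    ∀ m : ℕ, (sectorStates (ham h L) (P L) (energy (ham h L) (Ψ L) + m) : ℝ) ≤
      Real.exp (C * (m + 1) * Real.log L ^ k)

section family

variable {d R : ℕ} {h : BoxOp d R} {Δ : ℝ} {Ψ : ∀ L : ℕ, (Site L → Fin d) → ℂ}
  {P : ∀ L : ℕ, TorOp d L}

/-- overlap gives PEPS -/
theorem over_to_approx (hR : 0 < R) (hh : h.IsHermitian) (hΔ : 0 < Δ) (k : ℕ) (C : ℝ)
    (hk : 1 ≤ k)
    (hS : ∃ L₀ : ℕ, ∀ (L : ℕ) [NeZero L], L₀ ≤ L → Sector h Δ L (P L) (Ψ L))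
    (hO : SectorOverlap P Ψ k C) (a : ℝ) (ha : 0 ≤ a) :
    ∃ C' : ℝ, SectorApprox P Ψ k C' fun L => Real.exp (-(a * Real.log L ^ k)) := by
  obtain ⟨R', rfl⟩ : ∃ R', R = R' + 1 := ⟨R - 1, by omega⟩
  obtain ⟨C0, hC0, hq⟩ := ampS d R' h hh Δ hΔ
  obtain ⟨L₁, hL₁⟩ := hS
  obtain ⟨L₂, hL₂⟩ := hO
  refine ⟨|C| + C0 * (1 + |C| + a), max (R' + 3) (max L₁ L₂), ?_⟩
  intro L _ hL
  have hLR : R' + 3 ≤ L := (le_max_left _ _).trans hL
  have hL3 : 3 ≤ L := by omega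
  obtain ⟨p1, p2, p3, hn, hg⟩ := hL₁ L (((le_max_left _ _).trans (le_max_right _ _)).trans hL)
  obtain ⟨D0, φ, hD0, hφ, hPφ, hφ1, hov⟩ :=
    hL₂ L (((le_max_right _ _).trans (le_max_right _ _)).trans hL)
  obtain ⟨m, V, hV, hVP⟩ := exists_iso (P L) p1 p2
  have hl1 := log_ge_one hL3
  have hlk : 1 ≤ Real.log L ^ k := one_le_pow₀ hl1
  have hal : 0 ≤ a * Real.log L ^ k := mul_nonneg ha (by linarith)
  obtain ⟨D, ψ, hD, hψ, hPψ, herr⟩ := hq L (by omega) (by omega) m V (P L) hVP hV p3 (Ψ L) hn hg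
    D0 φ hφ hPφ hφ1 (Real.exp (-(C * Real.log L ^ k))) (Real.exp (-(a * Real.log L ^ k)))
    (Real.exp_pos _) hov (Real.exp_pos _) (Real.exp_le_one_iff.2 (by linarith))
  refine ⟨D, ψ, hD.trans ?_, hψ, hPψ, by rw [sqrt_normSq]; exact herr⟩
  have hlog : Real.log (1 / (Real.exp (-(C * Real.log L ^ k)) *
      Real.exp (-(a * Real.log L ^ k)))) = C * Real.log L ^ k + a * Real.log L ^ k := by
    rw [← Real.exp_add, one_div, ← Real.exp_neg, Real.log_exp]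
    ring
  rw [hlog]
  generalize Real.log L = l at hl1 hlk hal hD0 ⊢
  have h11 : l ≤ l ^ k := by
    calc l = l ^ 1 := (pow_one l).symm
      _ ≤ l ^ k := pow_le_pow_right₀ hl1 hk
  have hCk : C * l ^ k ≤ |C| * l ^ k :=
    mul_le_mul_of_nonneg_right (le_abs_self _) (by linarith)
  have hsum : l + (C * l ^ k + a * l ^ k) ≤ (1 + |C| + a) * l ^ k := by
    have e : (1 + |C| + a) * l ^ k = l ^ k + |C| * l ^ k + a * l ^ k := by ring
    rw [e]; linarith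
  calc (D0 : ℝ) * Real.exp (C0 * (l + (C * l ^ k + a * l ^ k)))
      ≤ Real.exp (|C| * l ^ k) * Real.exp (C0 * ((1 + |C| + a) * l ^ k)) :=
        mul_le_mul (hD0.trans (Real.exp_le_exp.2 hCk))
          (Real.exp_le_exp.2 (mul_le_mul_of_nonneg_left hsum hC0.le)) (Real.exp_pos _).le
          (Real.exp_pos _).le
    _ = Real.exp ((|C| + C0 * (1 + |C| + a)) * l ^ k) := by
        rw [← Real.exp_add]
        congr 1
        ring

/-- few states in the sector give PEPS -/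
theorem few_to_approx (hR : 0 < R) (hh : h.IsHermitian) (hΔ : 0 < Δ) (k : ℕ) (C : ℝ)
    (hk : 1 ≤ k)
    (hS : ∃ L₀ : ℕ, ∀ (L : ℕ) [NeZero L], L₀ ≤ L → Sector h Δ L (P L) (Ψ L))
    (hF : FewSectorStates h P Ψ k C) (a : ℝ) (ha : 0 ≤ a) :
    ∃ C' : ℝ, SectorApprox P Ψ k C' fun L => Real.exp (-(a * Real.log L ^ k)) := by
  obtain ⟨R', rfl⟩ : ∃ R', R = R' + 1 := ⟨R - 1, by omega⟩
  obtain ⟨C0, hC0, hq⟩ := therS d R' h hh Δ hΔ
  obtain ⟨L₁, hL₁⟩ := hS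
  obtain ⟨L₂, hL₂⟩ := hF
  refine ⟨|C| + C0 * (3 * |C| + 3 + a), max (R' + 3) (max L₁ L₂), ?_⟩
  intro L _ hL
  have hLR : R' + 3 ≤ L := (le_max_left _ _).trans hL
  have hL3 : 3 ≤ L := by omega
  obtain ⟨p1, p2, p3, hn, hg⟩ := hL₁ L (((le_max_left _ _).trans (le_max_right _ _)).trans hL)
  obtain ⟨⟨D0, hD0, hcols⟩, hcnt⟩ := hL₂ L (((le_max_right _ _).trans (le_max_right _ _)).trans hL)
  obtain ⟨m, V, hV, hVP⟩ := exists_iso (P L) p1 p2
  have hH : (Vᴴ * ham h L * V).IsHermitian := cmp_herm (ham_herm h hh)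
  have hl1 := log_ge_one hL3
  have hlk : 1 ≤ Real.log L ^ k := one_le_pow₀ hl1
  have ha0 : 0 ≤ |C| * Real.log L ^ k := mul_nonneg (abs_nonneg _) (by linarith)
  have hge := eig_ge h Δ hΔ hVP hV p3 (Ψ L) hn hg hH
  have hZ := count_to_partition (fun j => hH.eigenvalues j - energy (ham h L) (Ψ L))
    (fun j => by have := hge j; exact sub_nonneg.2 this) (|C| * Real.log L ^ k) (fun i => by
      have h2 := hcnt i
      have h3 : (univ.filter fun j => hH.eigenvalues j - energy (ham h L) (Ψ L) ≤ (i : ℝ)) =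
          univ.filter fun j => hH.eigenvalues j ≤ energy (ham h L) (Ψ L) + i := by
        ext j
        simp only [mem_filter, mem_univ, true_and]
        constructor <;> intro hx <;> linarith
      rw [h3]
      have h4 := states_cmp hVP hV (ham_comm h p3) hH (energy (ham h L) (Ψ L) + i)
      have h5 : (((univ.filter fun j => hH.eigenvalues j ≤
          energy (ham h L) (Ψ L) + i).card : ℕ) : ℝ) ≤
          (sectorStates (ham h L) (P L) (energy (ham h L) (Ψ L) + i) : ℝ) := by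
        exact_mod_cast h4
      refine (h5.trans h2).trans (Real.exp_le_exp.2 ?_)
      have h6 : C * Real.log L ^ k ≤ |C| * Real.log L ^ k :=
        mul_le_mul_of_nonneg_right (le_abs_self _) (by linarith)
      have h7 := mul_le_mul_of_nonneg_right h6 (by positivity : (0 : ℝ) ≤ (i : ℝ) + 1)
      calc C * ((i : ℝ) + 1) * Real.log L ^ k = C * Real.log L ^ k * (i + 1) := by ring
        _ ≤ _ := h7) ha0
  have hal : 0 ≤ a * Real.log L ^ k := mul_nonneg ha (by linarith)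
  obtain ⟨D, ψ, hD, hψ, hPψ, herr⟩ := hq L (by omega) (by omega) m V (P L) hVP hV p3 D0 hcols
    (Ψ L) hn hg hH (|C| * Real.log L ^ k + 1) (Real.exp (-(a * Real.log L ^ k))) (by linarith)
    (Real.exp_pos _) (Real.exp_le_one_iff.2 (by linarith))
  refine ⟨D, ψ, hD.trans ?_, hψ, hPψ, by rw [sqrt_normSq]; exact herr⟩
  have hZdef : (∑ j, Real.exp (-((|C| * Real.log L ^ k + 1) * (hH.eigenvalues j -
      (ip (Ψ L) (ham h L *ᵥ Ψ L)).re)))) ≤ 2 * Real.exp (2 * (|C| * Real.log L ^ k)) := hZ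
  have hlog : Real.log (1 / Real.exp (-(a * Real.log L ^ k))) = a * Real.log L ^ k := by
    rw [one_div, ← Real.exp_neg, Real.log_exp, neg_neg]
  rw [hlog]
  have hW : Real.log (∑ j, Real.exp (-((|C| * Real.log L ^ k + 1) * (hH.eigenvalues j -
      (ip (Ψ L) (ham h L *ᵥ Ψ L)).re)))) ≤ 1 + 2 * (|C| * Real.log L ^ k) := by
    rcases (Finset.sum_nonneg fun j (_ : j ∈ (univ : Finset (Fin m))) => (Real.exp_pos
      (-((|C| * Real.log L ^ k + 1) * (hH.eigenvalues j -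
      (ip (Ψ L) (ham h L *ᵥ Ψ L)).re)))).le).lt_or_eq with h0 | h0
    · refine (Real.log_le_log h0 hZdef).trans ?_
      rw [Real.log_mul (by norm_num) (Real.exp_pos _).ne', Real.log_exp]
      have := Real.log_two_lt_d9
      linarith
    · rw [← h0, Real.log_zero]
      linarith
  generalize Real.log (∑ j, Real.exp (-((|C| * Real.log L ^ k + 1) * (hH.eigenvalues j -
      (ip (Ψ L) (ham h L *ᵥ Ψ L)).re)))) = W at hW ⊢
  generalize Real.log L = l at hl1 hlk ha0 hW hal hD0 ⊢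
  have h11 : l ≤ l ^ k := by
    calc l = l ^ 1 := (pow_one l).symm
      _ ≤ l ^ k := pow_le_pow_right₀ hl1 hk
  have hCk : C * l ^ k ≤ |C| * l ^ k :=
    mul_le_mul_of_nonneg_right (le_abs_self _) (by linarith)
  have hsum : |C| * l ^ k + 1 + l + W + a * l ^ k ≤ (3 * |C| + 3 + a) * l ^ k := by
    have e : (3 * |C| + 3 + a) * l ^ k = 3 * (|C| * l ^ k) + 3 * l ^ k + a * l ^ k := by ring
    rw [e]; linarith
  calc (D0 : ℝ) * Real.exp (C0 * (|C| * l ^ k + 1 + l + W + a * l ^ k))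
      ≤ Real.exp (|C| * l ^ k) * Real.exp (C0 * ((3 * |C| + 3 + a) * l ^ k)) :=
        mul_le_mul (hD0.trans (Real.exp_le_exp.2 hCk))
          (Real.exp_le_exp.2 (mul_le_mul_of_nonneg_left hsum hC0.le)) (Real.exp_pos _).le
          (Real.exp_pos _).le
    _ = Real.exp ((|C| + C0 * (3 * |C| + 3 + a)) * l ^ k) := by
        rw [← Real.exp_add]
        congr 1
        ring

/-- polynomial errors from stretched ones -/
theorem sector_rpow {k : ℕ} {C c : ℝ} (hk : 1 ≤ k) (hc : 0 < c)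
    (hA : SectorApprox P Ψ k C fun L => Real.exp (-(c * Real.log L ^ k))) :
    SectorApprox P Ψ k C fun L => (L : ℝ) ^ (-c) := by
  obtain ⟨L₀, hL₀⟩ := hA
  refine ⟨max 3 L₀, ?_⟩
  intro L _ hL
  have hL3 : 3 ≤ L := (le_max_left _ _).trans hL
  obtain ⟨D, ψ, h1, h2, h4, h3⟩ := hL₀ L ((le_max_right _ _).trans hL)
  refine ⟨D, ψ, h1, h2, h4, h3.trans ?_⟩
  have hl1 := log_ge_one hL3
  have hL0 : (0 : ℝ) < L := by
    have : 1 ≤ L := by omega
    exact_mod_cast this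
  beta_reduce
  rw [Real.rpow_def_of_pos hL0]
  apply Real.exp_le_exp.2
  have h11 : Real.log L ≤ Real.log L ^ k := by
    calc Real.log L = Real.log L ^ 1 := (pow_one _).symm
      _ ≤ Real.log L ^ k := pow_le_pow_right₀ hl1 hk
  have := mul_le_mul_of_nonneg_left h11 hc.le
  linarith

/-- one exponent gives a good overlap -/
theorem one_to_over
    (hS : ∃ L₀ : ℕ, ∀ (L : ℕ) [NeZero L], L₀ ≤ L → Sector h Δ L (P L) (Ψ L)) {c : ℝ} (hc : 0 < c)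
    {k : ℕ} {C : ℝ}
    (hA : SectorApprox P Ψ k C fun L => (L : ℝ) ^ (-c)) : ∃ C, SectorOverlap P Ψ k C := by
  obtain ⟨L₁, hL₁⟩ := hS
  obtain ⟨L₂, hL₂⟩ := hA
  obtain ⟨L₃, hL₃⟩ := rpow_small c hc (1 / 4) (by norm_num)
  refine ⟨|C| + 1, max 3 (max L₁ (max L₂ L₃)), ?_⟩
  intro L _ hL
  simp only [max_le_iff] at hL
  obtain ⟨h3, ha, hb, hc'⟩ := hL
  have hn := (hL₁ L ha).unit
  obtain ⟨D, ψ, hD, hψ, hPψ, herr⟩ := hL₂ L hb
  rw [sqrt_normSq] at herr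
  obtain ⟨n1, n2, n3⟩ := near (Ψ L) ψ hn (herr.trans (hL₃ L hc'))
  obtain ⟨u1, u2, u3⟩ := unit_of hψ (by linarith)
  have hl1 := log_ge_one h3
  have hlk : 1 ≤ Real.log L ^ k := one_le_pow₀ hl1
  refine ⟨D, _, hD.trans (Real.exp_le_exp.2 ?_), u1, by rw [Matrix.mulVec_smul, hPψ], u2, ?_⟩
  · have := le_abs_self C
    nlinarith only [this, hlk, abs_nonneg C]
  · rw [u3]
    have h5 : (3 : ℝ) / 5 ≤ ‖ip (Ψ L) ψ‖ / nr ψ := by
      rw [le_div_iff₀ (by linarith)]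
      linarith
    refine le_trans ?_ h5
    have h6 : Real.exp (-((|C| + 1) * Real.log L ^ k)) ≤ Real.exp (-1) := by
      apply Real.exp_le_exp.2
      nlinarith only [mul_nonneg (abs_nonneg C) (by linarith : (0 : ℝ) ≤ Real.log L ^ k), hlk]
    exact h6.trans (exp_neg_one_lt.trans (by norm_num))

end family

end Pool.Agent.Helper22P
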