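import Pool.Agent.Helper22P.Amp

/-! The thermal argument inside the range of a projection which commutes with all terms. -/

set_option autoImplicit false
set_option linter.unusedSectionVars false

open scoped BigOperators Matrix InnerProductSpace
open Finset Pool.Agent.TH235.PP Pool.Agent.TH235.PQ

namespace Pool.Agent.Helper22P

section rows

variable {n m : Type*} [Fintype n] [DecidableEq n] [Fintype m] [DecidableEq m]
  {V : Matrix n m ℂ}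

theorem row_V (hV : Vᴴ * V = 1) (u : m → ℂ) :
    ∑ t, ‖∑ k, u k * star (V t k)‖ ^ 2 = ∑ k, ‖u k‖ ^ 2 := by
  have h1 : normSq (V *ᵥ fun k => star (u k)) = normSq fun k => star (u k) := by
    rw [← nr_sq, ← nr_sq, nr_V hV]
  have h2 : normSq (fun k => star (u k)) = ∑ k, ‖u k‖ ^ 2 := by
    unfold normSq
    simp only [norm_star]
  rw [← h2, ← h1]
  unfold normSq
  refine Finset.sum_congr rfl fun t _ => ?_
  congr 1
  rw [← norm_star]
  congr 1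
  rw [star_sum]
  unfold Matrix.mulVec dotProduct
  refine Finset.sum_congr rfl fun k _ => ?_
  rw [star_mul', star_star, mul_comm]

theorem col_V (B : Matrix m m ℂ) (t : n) :
    B *ᵥ (Vᴴ *ᵥ Pi.single t 1) = fun i => ∑ k, B i k * star (V t k) := by
  funext i
  rw [Matrix.mulVec_single_one]
  rfl

theorem sum_normSq_V (hV : Vᴴ * V = 1) (B : Matrix m m ℂ) :
    ∑ t, normSq (B *ᵥ (Vᴴ *ᵥ Pi.single t 1)) = fr2 B := by
  unfold normSq fr2
  rw [Finset.sum_comm]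
  refine Finset.sum_congr rfl fun i _ => ?_
  rw [← row_V hV]
  refine Finset.sum_congr rfl fun t _ => ?_
  rw [col_V]

theorem sum_ip_V (hV : Vᴴ * V = 1) (B : Matrix m m ℂ) (x : m → ℂ) :
    ∑ t, ‖ip x (B *ᵥ (Vᴴ *ᵥ Pi.single t 1))‖ ^ 2 = ∑ k, ‖ip x (fun s => B s k)‖ ^ 2 := by
  rw [← row_V hV]
  refine Finset.sum_congr rfl fun t _ => ?_
  congr 2
  rw [col_V]
  unfold ip
  simp only [Finset.mul_sum, Finset.sum_mul]
  rw [Finset.sum_comm]
  refine Finset.sum_congr rfl fun k _ => Finset.sum_congr rfl fun s _ => ?_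
  ring

end rows

section core

variable {d R' L : ℕ} [NeZero L]

open scoped Matrix.Norms.L2Operator in
/-- A PEPS in the range of `P` whose overlap with the ground state is controlled by the partition
function of the range of `P`. -/
lemma therm_coreS (hL : R' + 1 ≤ L) (h : BoxOp d (R' + 1))
    (Δ : ℝ) (hΔ : 0 < Δ) {m : ℕ} {V : Matrix (Site L → Fin d) (Fin m) ℂ}
    {P : TorOp d L} (hVP : V * Vᴴ = P) (hV : Vᴴ * V = 1)
    (hc : ∀ u : Site L, term h u * P = P * term h u)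
    (D0 : ℕ) (hD0 : ∀ t : Site L → Fin d, IsPEPS D0 (P *ᵥ Pi.single t 1))
    (Ψ : (Site L → Fin d) → ℂ) (hΨ : normSq Ψ = 1) (hgr : SectorGround (ham h L) P Δ Ψ)
    (hH : (Vᴴ * ham h L * V).IsHermitian) (β : ℝ) (hβ : 0 ≤ β) (q r K : ℕ)
    (hKd : K = (R' + 1) ^ 4)
    (hNy80 : ((L ^ 2 : ℕ) : ℝ) * (β / tm q * nJ h) ≤ 1 / 80)
    (hMN : (tm q : ℝ) * (((L ^ 2 : ℕ) : ℝ) * (β / tm q * nJ h)) ^ 2 ≤ 1 / 16)
    (hr : ((L ^ 2 : ℕ) : ℝ) * Real.exp (100 * (K + 1) ^ 2 * (1 + β * nJ h) -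
      r / (10 * K * (K + 1) ^ 2)) ≤ 1 / 24) :
    ∃ φ : (Site L → Fin d) → ℂ,
      IsPEPS (Fintype.card (Fin D0 × (Fin (2 * R' + 1) × Fin (2 * R' + 1) →
        LabT d (R' + 1) q r))) φ ∧ P *ᵥ φ = φ ∧
      normSq φ = 1 ∧ 1 / (18 * Real.sqrt (∑ j, Real.exp (-(β * (hH.eigenvalues j -
        (ip Ψ (ham h L *ᵥ Ψ)).re))))) ≤ ‖ip Ψ φ‖ := by
  have hnrΨ : nr Ψ = 1 := nr_one Ψ hΨ
  obtain ⟨E, hE, hsimple, hgap⟩ := hgr.2
  have hEE : (ip Ψ (ham h L *ᵥ Ψ)).re = E := by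
    rw [hE, ip_smul_right, ip_self_one Ψ hΨ, mul_one, Complex.ofReal_re]
  rw [hEE]
  set Ψ' := Vᴴ *ᵥ Ψ with hΨ'
  have hVΨ : V *ᵥ Ψ' = Ψ := V_back hVP hgr.1
  have hnΨ' : nr Ψ' = 1 := by rw [← nr_V hV, hVΨ, hnrΨ]
  have hnΨ2 : normSq Ψ' = 1 := by rw [← nr_sq, hnΨ', one_pow]
  have hne : Nonempty (Fin m) := nonempty_of_nr Ψ' hnΨ'
  have hhc := ham_comm h hc
  have hiH := itw_cmp hVP hV hhc
  have hE' : (Vᴴ * ham h L * V) *ᵥ Ψ' = (E : ℂ) • Ψ' := by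
    apply V_inj hV
    rw [← itw_mulVec hiH, hVΨ, hE, Matrix.mulVec_smul, hVΨ]
  have hgap' : ∀ (E' : ℝ) (φ : Fin m → ℂ), φ ≠ 0 → (Vᴴ * ham h L * V) *ᵥ φ = (E' : ℂ) • φ →
      E' = E ∨ E + Δ ≤ E' := by
    intro E' φ hφ0 hφ
    refine hgap E' (V *ᵥ φ) ?_ (V_range hVP hV φ)
      (by rw [itw_mulVec hiH, hφ, Matrix.mulVec_smul])
    intro h0
    exact hφ0 (V_inj hV (by rw [h0, Matrix.mulVec_zero]))
  have hJ0 := nJ_nonneg h
  have hM1 : 1 ≤ tm q := tm_pos q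
  have hM0 : (0 : ℝ) < tm q := by exact_mod_cast hM1
  have hNy : ((L ^ 2 : ℕ) : ℝ) * (β / tm q * nJ h) ≤ 1 / 4 := by linarith
  have hL1 : (1 : ℝ) ≤ ((L ^ 2 : ℕ) : ℝ) := by
    have h1 : 1 ≤ L := by omega
    exact_mod_cast Nat.one_le_pow _ _ h1
  obtain ⟨e⟩ : Nonempty (Fin (L ^ 2) ≃ Site L) := by
    rw [← Fintype.card_eq, Fintype.card_fin, card_site]
  obtain ⟨f1, f2, f3, j0, f4⟩ := eig_facts (Vᴴ * ham h L * V) hH Δ hΔ Ψ' hnΨ2 E hE' hgap'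
  have hκ : 0 ≤ β / (tm q : ℝ) := by positivity
  have hκM : β / (tm q : ℝ) * tm q = β := by field_simp
  generalize hκd : β / (tm q : ℝ) = κ at hκ hκM hNy hMN hNy80
  generalize hyd : κ * nJ h = y0 at hNy hMN hNy80
  have hy00 : 0 ≤ y0 := by rw [← hyd]; positivity
  have hy80 : y0 ≤ 1 / 80 := by nlinarith
  have hMy : (tm q : ℝ) * y0 = β * nJ h := by
    rw [← hyd, ← hκM]; ring
  have hAn : κ * ‖Vᴴ * ham h L * V‖ ≤ 1 / 4 := by
    refine le_trans ?_ hNy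
    have h1 : ‖ham h L‖ ≤ (L : ℝ) ^ 2 * nJ h := norm_ham h
    calc κ * ‖Vᴴ * ham h L * V‖ ≤ κ * ((L : ℝ) ^ 2 * nJ h) :=
          mul_le_mul_of_nonneg_left ((norm_cmp hV _).trans h1) hκ
      _ = ((L ^ 2 : ℕ) : ℝ) * y0 := by rw [← hyd]; push_cast; ring
  have hk1 : ∀ x : ℝ, |x| ≤ ‖Vᴴ * ham h L * V‖ → κ * x ≤ 1 / 4 ∧ -(1 / 4) ≤ κ * x := by
    intro x hx
    have h1 : |κ * x| ≤ 1 / 4 := by
      rw [abs_mul, abs_of_nonneg hκ]
      exact (mul_le_mul_of_nonneg_left hx hκ).trans hAn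
    rw [abs_le] at h1
    exact ⟨h1.2, h1.1⟩
  have hl : ∀ j, 3 / 4 ≤ 1 - κ * hH.eigenvalues j := fun j => by linarith [(hk1 _ (f1 j)).1]
  have hg34 : 3 / 4 ≤ 1 - κ * E := by linarith [(hk1 E f2).1]
  have hg2 : 1 - κ * E ≤ 2 := by linarith [(hk1 E f2).2]
  have hGn := norm_G (Vᴴ * ham h L * V) hH κ E hκ (fun j => by linarith [hl j]) f3
  set y : Fin (L ^ 2) → TorOp d L := fun b => ((-κ : ℝ) : ℂ) • term h (e b) with hy
  have hyc : ∀ b, y b * P = P * y b := by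
    intro b
    rw [hy]
    simp only []
    rw [Matrix.smul_mul, Matrix.mul_smul, hc]
  have hyn : ∀ b, ‖Vᴴ * y b * V‖ ≤ y0 := by
    intro b
    refine (norm_cmp hV _).trans ?_
    rw [hy]
    simp only []
    rw [norm_smul, Complex.norm_real, Real.norm_eq_abs, abs_neg, abs_of_nonneg hκ, ← hyd]
    exact mul_le_mul_of_nonneg_left (norm_term h (e b)) hκ
  have hG0 : 1 + ∑ b, y b = 1 - (κ : ℂ) • ham h L := by
    rw [hy]
    simp only []
    rw [← Finset.smul_sum]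
    have : ∑ b, term h (e b) = ham h L := by
      unfold ham
      exact e.sum_comp (fun u => term h u)
    rw [this]
    push_cast
    rw [neg_smul, sub_eq_add_neg]
  have hG : 1 + ∑ b, Vᴴ * y b * V = 1 - (κ : ℂ) • (Vᴴ * ham h L * V) := by
    rw [cmp_sum V hV, hG0, Matrix.mul_sub, Matrix.sub_mul, Matrix.mul_one, hV, Matrix.mul_smul,
      Matrix.smul_mul]
  have h2M : 2 * (tm q : ℝ) * (((L ^ 2 : ℕ) : ℝ) * y0) ^ 2 ≤ 1 := by
    have : 2 * (tm q : ℝ) * (((L ^ 2 : ℕ) : ℝ) * y0) ^ 2 =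
      2 * (tm q * (((L ^ 2 : ℕ) : ℝ) * y0) ^ 2) := by ring
    rw [this]; linarith
  have hK1 : 1 ≤ K := by rw [hKd]; exact Nat.one_le_pow _ _ (Nat.succ_pos _)
  have hKc : ∀ b, open Classical in (univ.filter fun b' => adjR R' e b b').card ≤ K := by
    intro b
    rw [hKd]
    exact adjR_card e b
  rw [← hMy] at hr
  have htr := trunc_KA (comb pair) (adjR R' e) K (adjR_symm e) (adjR_irr e) hK1 hKc q r
    (fun b => Vᴴ * y b * V) y0
    (1 - κ * E) hy00 hy80 hyn (by rw [hG]; exact hGn) hg34 hNy h2M (by linarith)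
  rw [hG] at htr
  have hgM : 0 < (1 - κ * E) ^ tm q := by
    have : 0 < 1 - κ * E := by linarith
    positivity
  have htr2 : ‖KA (adjR R' e) q (fun b => Vᴴ * y b * V) r -
      ((1 : Matrix (Fin m) (Fin m) ℂ) - (κ : ℂ) • (Vᴴ * ham h L * V)) ^ tm q‖ ≤
      (1 - κ * E) ^ tm q / 2 := by
    refine htr.trans ?_
    rw [show (1 - κ * E) ^ tm q / 2 = (1 - κ * E) ^ tm q * (1 / 2) by ring]
    exact mul_le_mul_of_nonneg_left (by linarith) hgM.le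
  have hov := over_KT (Vᴴ * ham h L * V) hH κ E (1 - κ * E) Ψ' hnΨ2 hE' rfl (by linarith) (tm q)
    (KA (adjR R' e) q (fun b => Vᴴ * y b * V) r) htr2
  have hfr := frob_KA (comb pair) (Vᴴ * ham h L * V) hH κ hl (adjR R' e) K (adjR_symm e)
    (adjR_irr e) hK1 hKc q r (fun b => Vᴴ * y b * V) hG y0 hy00 hy80 hyn hNy h2M (by linarith)
  have htrace := trace_le hH.eigenvalues E κ β (tm q) hκ hκM f3 (fun j => by linarith [hl j])
    (by linarith) hg2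
  set Z : ℝ := ∑ j, Real.exp (-(β * (hH.eigenvalues j - E))) with hZ
  have hZ0 : 0 < Z := by
    rw [hZ]
    exact Finset.sum_pos (fun j _ => Real.exp_pos _) ⟨j0, mem_univ _⟩
  have hg2M : 0 < (1 - κ * E) ^ (2 * tm q) := by
    have : 0 < 1 - κ * E := by linarith
    positivity
  obtain ⟨A1, hA1⟩ : ∃ A1 : Matrix (Fin m) (Fin m) ℂ,
    A1 = KA (adjR R' e) q (fun b => Vᴴ * y b * V) r := ⟨_, rfl⟩
  rw [← hA1] at hov hfr
  obtain ⟨t, ht0, ht⟩ := avg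
    (fun t : Site L → Fin d => ‖ip Ψ' (A1 *ᵥ (Vᴴ *ᵥ Pi.single t 1))‖ ^ 2)
    (fun t : Site L → Fin d => normSq (A1 *ᵥ (Vᴴ *ᵥ Pi.single t 1))) (1 / (324 * Z))
    ((1 - κ * E) ^ (2 * tm q) / 4)
    (fun t => Finset.sum_nonneg fun _ _ => by positivity)
    (fun t h0 => by
      have h1 : nr (A1 *ᵥ (Vᴴ *ᵥ Pi.single t 1)) = 0 := by
        have := nr_sq (A1 *ᵥ (Vᴴ *ᵥ Pi.single t 1))
        rw [h0] at this
        exact pow_eq_zero_iff (two_ne_zero) |>.1 this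
      have h2 := ip_le Ψ' (A1 *ᵥ (Vᴴ *ᵥ Pi.single t 1))
      rw [h1, mul_zero] at h2
      have h3 : ‖ip Ψ' (A1 *ᵥ (Vᴴ *ᵥ Pi.single t 1))‖ = 0 := le_antisymm h2 (norm_nonneg _)
      simp only [h3]
      norm_num)
    (div_pos hg2M (by norm_num)) (by rw [sum_ip_V hV]; exact hov)
    (by
      rw [sum_normSq_V hV]
      have h1 : fr2 A1 ≤ 81 * ((1 - κ * E) ^ (2 * tm q) * Z) :=
        hfr.trans (mul_le_mul_of_nonneg_left htrace (by norm_num))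
      calc 1 / (324 * Z) * fr2 A1 ≤ 1 / (324 * Z) * (81 * ((1 - κ * E) ^ (2 * tm q) * Z)) :=
            mul_le_mul_of_nonneg_left h1
              (div_nonneg zero_le_one (mul_nonneg (by norm_num) hZ0.le))
        _ = (1 - κ * E) ^ (2 * tm q) / 4 := aux324 _ _ hZ0)
  obtain ⟨A0, hA0⟩ := hD0 t
  obtain ⟨A, hA⟩ := peps_KA reg hL A0 ((-κ : ℝ) : ℂ) h e q r
  have hi := itw_KA (adjR R' e) q r y (fun b => Vᴴ * y b * V) fun b => itw_cmp hVP hV (hyc b)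
  have hx : contract A = V *ᵥ (A1 *ᵥ (Vᴴ *ᵥ Pi.single t 1)) := by
    rw [← hA, ← hA0, hA1, ← itw_mulVec hi, Matrix.mulVec_mulVec (Pi.single t 1) V, hVP]
  have hn1 : normSq (contract A) = normSq (A1 *ᵥ (Vᴴ *ᵥ Pi.single t 1)) := by
    rw [← nr_sq, ← nr_sq, hx, nr_V hV]
  have hn2 : ip Ψ (contract A) = ip Ψ' (A1 *ᵥ (Vᴴ *ᵥ Pi.single t 1)) := by
    rw [hx, ← hVΨ, ip_V hV]
  rw [← hn1] at ht0 ht
  rw [← hn2] at ht
  have hPA : P *ᵥ contract A = contract A := by rw [hx, V_range hVP hV]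
  have hpeps : IsPEPS (Fintype.card (Fin D0 × (Fin (2 * R' + 1) × Fin (2 * R' + 1) →
      LabT d (R' + 1) q r))) (contract A) := isPEPS_contract A
  have hnr : 0 < nr (contract A) := by
    rcases (nr_nonneg (contract A)).lt_or_eq with h5 | h5
    · exact h5
    · exfalso
      have := nr_sq (contract A)
      rw [← h5] at this
      rw [← this] at ht0
      simp at ht0
  have hnn : ‖((nr (contract A))⁻¹ : ℂ)‖ = (nr (contract A))⁻¹ := by
    rw [norm_inv, Complex.norm_real, Real.norm_eq_abs, abs_of_pos hnr]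
  refine ⟨((nr (contract A))⁻¹ : ℂ) • contract A, hpeps.smul _, ?_, ?_, ?_⟩
  · rw [Matrix.mulVec_smul, hPA]
  · rw [← nr_sq, nr_smul, hnn, inv_mul_cancel₀ hnr.ne', one_pow]
  · rw [ip_smul_right, norm_mul, hnn, inv_mul_eq_div, le_div_iff₀ hnr]
    apply le_of_sq_le_sq _ (norm_nonneg _)
    refine le_trans (le_of_eq ?_) ht
    rw [mul_pow, nr_sq, div_pow, mul_pow, Real.sq_sqrt hZ0.le]
    norm_num

end core

end Pool.Agent.Helper22P
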